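import Pool.Agent.Q171.AS.Cover

namespace Pool.Agent.Results.MP_181555_al.FlagStabilizers

open Pool.Agent.Q171.AS

/-- The congruence subgroup property for stabilizers of flags of free factors of ranks `2, 3, ..., n`
and of finite index subgroups. Let `T = flag n` be the group of the automorphisms `α` of the free group
on `x 0, ..., x (n-1)` that map the free factor `base n` generated by `x 0`, `x 1` onto itself and such
that for every `i ≥ 2` the element `α (x i)` is of the form `u * (x i) ^ (± 1) * v` with `u`, `v` in
the subgroup generated by the `x j`, `j < i`; for `n = 2` this is the whole automorphism group.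
(1) Let `n > 2` and let `M` be a subgroup of finite index in `T` that contains the inner automorphisms
lying in `T`. Then there is a characteristic subgroup `K` of finite index in the free group such that
every element of `T` that acts on the quotient by `K` as an inner automorphism lies in `M`.
(2) Let `n ≥ 2`, let `U` be a proper subgroup of finite index in the free group (a free group of rank
at least three), let `pres n U` be the group of the elements of `T` that map `U` onto itself; it acts
on `U` by `rs`. Let `M` be a subgroup of finite index in `pres n U` that contains the conjugations by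
elements of `U` lying in `pres n U`. Then there is a characteristic subgroup `K` of finite index in `U`
such that every element of `pres n U` that acts on the quotient of `U` by `K` as an inner automorphism
of `U` lies in `M`. -/
theorem result :
    (∀ n : ℕ, 2 < n → ∀ M : Subgroup (flag n), M.FiniteIndex →
      (∀ (g : FreeGroup (Fin n)) (h : MulAut.conj g ∈ flag n),
        (⟨MulAut.conj g, h⟩ : flag n) ∈ M) →
      ∃ K : Subgroup (FreeGroup (Fin n)), K.Characteristic ∧ K.FiniteIndex ∧
        ∀ α : flag n, (∃ g : FreeGroup (Fin n), ∀ x : FreeGroup (Fin n),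
          (α : MulAut (FreeGroup (Fin n))) x * (g * x * g⁻¹)⁻¹ ∈ K) → α ∈ M) ∧
    (∀ n : ℕ, 2 ≤ n → ∀ U : Subgroup (FreeGroup (Fin n)), U ≠ ⊤ → U.FiniteIndex →
      ∀ M : Subgroup (pres n U), M.FiniteIndex →
      (∀ (u : FreeGroup (Fin n)) (h : MulAut.conj u ∈ pres n U), u ∈ U →
        (⟨MulAut.conj u, h⟩ : pres n U) ∈ M) →
      ∃ K : Subgroup U, K.Characteristic ∧ K.FiniteIndex ∧
        ∀ α : pres n U, (∃ u : U, ∀ x : U, rs α x * (u * x * u⁻¹)⁻¹ ∈ K) → α ∈ M) ∧
    flag 2 = ⊤ := by
  refine ⟨fun n hn M hM hinn => flag_out hn.le M hinn, fun m hm U _ hU M hM hinn =>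
    cover hm U M hinn, ?_⟩
  rw [Subgroup.eq_top_iff']
  intro α
  have h : base 2 = ⊤ := by
    rw [eq_top_iff, ← FreeGroup.closure_range_of, Subgroup.closure_le]
    rintro _ ⟨i, rfl⟩
    exact of_mem_base i.2
  refine ⟨fun w => by simp [h], fun i hi => ?_⟩
  exfalso
  omega

end Pool.Agent.Results.MP_181555_al.FlagStabilizers
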