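import Pool.Agent.Q171.AS.Split

namespace Pool.Agent.Results.MP_181555_al.FreeSplittings

open Pool.Agent.Q171.AS

/-- The congruence topology of the outer automorphism group of a free group on the stabilizers of free
splittings. Let `FP n` be the free product of `k ≥ 2` free groups `A i` of ranks `n i ≥ 1`; for
automorphisms `α i` of the factors let `prodA n α` be the automorphism of the free product that
restricts to `α i` on each factor. (1) For all characteristic subgroups `K i` of finite index in the
factors there is a characteristic subgroup `L` of finite index in the free product such that if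
`prodA n α` acts as an inner automorphism on the quotient by `L` then each `α i` acts trivially on the
quotient of the factor `A i` by `K i`. (2) For every subgroup `M` of finite index in the product of
the groups `flag (n i)` there is a characteristic subgroup `L` of finite index in the free product
such that all `α` in the product of the groups `flag (n i)` for which `prodA n α` acts as an inner
automorphism on the quotient by `L` lie in `M`; for ranks at most two `flag` is the whole automorphism
group. -/
theorem result :
    (∀ (k : ℕ) (n : Fin k → ℕ), 2 ≤ k → (∀ i, 1 ≤ n i) →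
      ∀ K : ∀ i, Subgroup (FreeGroup (Fin (n i))), (∀ i, (K i).Characteristic) →
      (∀ i, (K i).FiniteIndex) → ∃ L : Subgroup (FP n), L.Characteristic ∧ L.FiniteIndex ∧
        ∀ α : ∀ i, MulAut (FreeGroup (Fin (n i))),
          (∃ g, ∀ x, prodA n α x * (g * x * g⁻¹)⁻¹ ∈ L) → ∀ i w, α i w * w⁻¹ ∈ K i) ∧
    (∀ (k : ℕ) (n : Fin k → ℕ), 2 ≤ k → (∀ i, 1 ≤ n i) →
      ∀ M : Subgroup (∀ i, flag (n i)), M.FiniteIndex →
      ∃ L : Subgroup (FP n), L.Characteristic ∧ L.FiniteIndex ∧
        ∀ α : ∀ i, flag (n i),
          (∃ g, ∀ x, prodA n (fun i => (α i : MulAut (FreeGroup (Fin (n i))))) x *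
            (g * x * g⁻¹)⁻¹ ∈ L) → α ∈ M) ∧
    (∀ m : ℕ, m ≤ 2 → flag m = ⊤) := by
  refine ⟨fun k n hk hn K hK hKf => split_all n hk hn K hK hKf, fun k n hk hn M hM => ?_,
    fun m hm => flag_top hm⟩
  exact split_flag n hk hn M

end Pool.Agent.Results.MP_181555_al.FreeSplittings
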