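import Pool.Agent.Q23.CS.Uncond

/-!
# Stabilizers of free splittings with one vertex and the congruence topology

Outline of the proof. A subgroup `M` of finite index in the group `L` of the theorem contains the
automorphisms `x j ↦ u j * x j * v j` with `u j`, `v j` in a subgroup `W` of finite index of the free
group on `I`; homomorphisms to the permutations of three copies of the quotient by `W` detect whether
an element of `L` fixes the letters `x j` up to such factors. If an element of `L` acts on `F / K` as
conjugation by `g`, a permutational wreath product over the cosets of the image of the factor on `I`
in `F / K` shows that `g` lies in this image, and `g` is corrected by an inner automorphism in `M`.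
Conversely, `α ↦ u⁻¹ α u`, where `α (x j) = u * x j * v` for one fixed `j`, is a homomorphism from a
subgroup of finite index of `L` to `A` which kills the inner automorphisms. The last part uses the
theorem of Asada on the free group of rank two, proved in our files by helper171.
-/

set_option autoImplicit false

namespace Pool.Agent.Results.MP_181555_al.OneVertexSplittings

open Pool.Agent.Q23.CS (FullAut FullOut loops)

/-- Let `I`, `J` be finite nonempty sets, `A` a group of automorphisms of the free group on `I` and
`loops J A` the group of all automorphisms of the free group on `I ⊕ J` which restrict to an element
of `A` on the free factor on `I` and map each letter `x j`, `j` in `J`, to `u * (x (σ j)) ^ (± 1) * v`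
with `u`, `v` in this factor, where `σ` is a permutation of `J`. The congruence topology on `A` is the
full profinite topology if and only if this holds for `loops J A`, and, if `A` contains the inner
automorphisms, if and only if this holds for the image of `loops J A` in the group of outer
automorphisms. The latter is true if `A` is the group of all automorphisms and `I` has one or two
elements. -/
theorem result :
    (∀ (I J : Type) [Finite I] [Finite J] [Nonempty I] [Nonempty J]
      (A : Subgroup (MulAut (FreeGroup I))),
      (FullAut A ↔ FullAut (loops J A)) ∧
        ((∀ g : FreeGroup I, MulAut.conj g ∈ A) → (FullAut A ↔ FullOut (loops J A)))) ∧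
    ∀ (m : ℕ) (J : Type) [Finite J] [Nonempty J], m = 1 ∨ m = 2 →
      FullOut (loops J (⊤ : Subgroup (MulAut (FreeGroup (Fin m))))) :=
  ⟨fun _ _ _ _ _ _ A => Pool.Agent.Q23.CS.loops_main A,
    fun _ J _ _ hm => Pool.Agent.Q23.CS.loops_two hm J⟩

end Pool.Agent.Results.MP_181555_al.OneVertexSplittings
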