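import Pool.Agent.Q24.CG.Main

namespace Pool.Agent.Results.MP_181555_al.TriangularCongruence

open Pool.Agent.Q24.CG

/-- The congruence subgroup property for triangular automorphisms of free groups. Let `T = tri n` be
the group of the automorphisms `α` of the free group on `x 0, ..., x (n-1)` such that every
`α (x i)` is of the form `u * (x i) ^ (± 1) * v` with `u`, `v` in the subgroup generated by the
`x j`, `j < i`. Let `M` be a subgroup of finite index in `T` that contains the inner automorphisms
lying in `T`. Then there is a characteristic subgroup `K` of finite index in the free group such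
that every element of `T` that acts on the quotient by `K` as an inner automorphism lies in `M`. -/
theorem result : ∀ (n : ℕ) (M : Subgroup (tri n)), M.FiniteIndex →
    (∀ (g : FreeGroup (Fin n)) (h : MulAut.conj g ∈ tri n), (⟨MulAut.conj g, h⟩ : tri n) ∈ M) →
    ∃ K : Subgroup (FreeGroup (Fin n)), K.Characteristic ∧ K.FiniteIndex ∧
      ∀ α : tri n, (∃ g : FreeGroup (Fin n), ∀ x : FreeGroup (Fin n),
        (α : MulAut (FreeGroup (Fin n))) x * (g * x * g⁻¹)⁻¹ ∈ K) → α ∈ M := by
  intro n M hM hinn
  exact out_version M hinn

end Pool.Agent.Results.MP_181555_al.TriangularCongruence
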